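import Pool.Agent.H76.PS.Defs2

/-!
# Project PS, job G1: the cyclotomic character
-/

set_option autoImplicit false

namespace Pool.Agent.K7.H79.PS

open Pool.Agent.H76.PS
open Pool.Agent.Y715.Gi (QB KK GK)
open Pool.Agent.Y715.Nr Pool.Agent.W237.RK
open Pool.Agent.Z384 (II DD DDs Fld)

lemma exists_prim (m : ℕ) : ∃ ζ : QB, IsPrimitiveRoot ζ (2 ^ m) :=
  HasEnoughRootsOfUnity.exists_primitiveRoot QB (2 ^ m)

lemma stab_open {s : QB} (σ : GK s) (x : QB) : IsOpen {τ : GK s | τ x = σ x} := by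
  have h := (stabilizer_isOpen_of_isIntegral (K := KK s) (L := QB) x)
  have h2 : {τ : GK s | τ x = σ x} = (fun τ : GK s => σ⁻¹ * τ) ⁻¹'
      (MulAction.stabilizer (GK s) x : Set (GK s)) := by
    ext τ
    simp only [Set.mem_ofPred_eq, Set.mem_preimage, SetLike.mem_coe, MulAction.mem_stabilizer_iff,
      AlgEquiv.smul_def, AlgEquiv.mul_apply]
    constructor
    · intro h
      rw [h]
      exact σ.symm_apply_apply x
    · intro h
      have h3 := congrArg σ h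
      rw [show σ (σ⁻¹ (τ x)) = τ x from σ.apply_symm_apply _] at h3
      exact h3
  rw [h2]
  exact h.preimage (continuous_const.mul continuous_id)

lemma pow_cast {m : ℕ} {ζ : QB} (hζ : ζ ^ 2 ^ m = 1) (k : ℕ) :
    ζ ^ ((k : ZMod (2 ^ m))).val = ζ ^ k := by
  rw [ZMod.val_natCast, ← pow_eq_pow_mod k hζ]

lemma pow_add_val {m : ℕ} {ζ : QB} (hζ : ζ ^ 2 ^ m = 1) (a b : ZMod (2 ^ m)) :
    ζ ^ (a + b).val = ζ ^ (a.val + b.val) := by
  rw [ZMod.val_add, ← pow_eq_pow_mod _ hζ]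

lemma pow_mul_val {m : ℕ} {ζ : QB} (hζ : ζ ^ 2 ^ m = 1) (a b : ZMod (2 ^ m)) :
    ζ ^ (a * b).val = ζ ^ (a.val * b.val) := by
  rw [ZMod.val_mul, ← pow_eq_pow_mod _ hζ]

lemma val_inj {m : ℕ} {ζ : QB} (hζ : IsPrimitiveRoot ζ (2 ^ m)) {a b : ZMod (2 ^ m)}
    (h : ζ ^ a.val = ζ ^ b.val) : a = b :=
  ZMod.val_injective _ (hζ.pow_inj (ZMod.val_lt a) (ZMod.val_lt b) h)

lemma cyc_eq {s : QB} {χ : GK s → ℤ_[2]} (hχ : IsCyc χ) {m : ℕ} {ζ : QB}
    (hζ : IsPrimitiveRoot ζ (2 ^ m)) {σ : GK s} {a : ZMod (2 ^ m)} (h : σ ζ = ζ ^ a.val) :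
    PadicInt.toZModPow m (χ σ) = a := by
  refine val_inj hζ ?_
  rw [← hχ σ m ζ hζ.pow_eq_one, h]

lemma dist_le {x y : ℤ_[2]} {m : ℕ} (h : PadicInt.toZModPow m x = PadicInt.toZModPow m y) :
    dist x y ≤ (2 : ℝ) ^ (-(m : ℤ)) := by
  have h1 : x - y ∈ RingHom.ker (PadicInt.toZModPow (p := 2) m) := by
    rw [RingHom.mem_ker, map_sub, h, sub_self]
  rw [PadicInt.ker_toZModPow] at h1
  rw [dist_eq_norm]
  have h2 := (PadicInt.norm_le_pow_iff_mem_span_pow (x - y) m).2 h1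
  simpa using h2

/-- a function to `ℤ_2` whose reductions are locally constant is continuous -/
lemma cont_of {X : Type*} [TopologicalSpace X] (f : X → ℤ_[2])
    (h : ∀ m : ℕ, ∀ x : X, ∀ᶠ y in nhds x, PadicInt.toZModPow m (f y) = PadicInt.toZModPow m (f x)) :
    Continuous f := by
  rw [continuous_iff_continuousAt]
  intro x
  rw [ContinuousAt, Metric.tendsto_nhds]
  intro ε hε
  obtain ⟨m, hm⟩ := exists_pow_lt_of_lt_one hε (by norm_num : (1 / 2 : ℝ) < 1)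
  filter_upwards [h m x] with y hy
  refine lt_of_le_of_lt (dist_le hy) ?_
  have e : (2 : ℝ) ^ (-(m : ℤ)) = (1 / 2 : ℝ) ^ m := by
    rw [zpow_neg, zpow_natCast, one_div, inv_pow]
  rw [e]
  exact hm

lemma twoUnit_one : TwoUnit 1 := by
  refine ⟨one_ne_zero, 0, ?_, ?_⟩
  · simpa using isIntegral_one (R := ℤ) (B := QB)
  · simpa using isIntegral_one (R := ℤ) (B := QB)

lemma te_stab (hD : StD3) {s : QB} {m : ℕ} {ζ : QB} (hζ : IsPrimitiveRoot ζ (2 ^ m)) :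
    TE (hζ.autToPow (KK s)).ker := by
  have hmem : ∀ σ : GK s, σ ∈ (hζ.autToPow (KK s)).ker ↔ σ ζ = ζ := by
    intro σ
    rw [MonoidHom.mem_ker]
    constructor
    · intro h
      have h1 := hζ.autToPow_spec (KK s) σ
      rw [h] at h1
      rw [← h1]
      have h2 := pow_cast hζ.pow_eq_one 1
      rw [pow_one] at h2
      simpa using h2
    · intro h
      have h1 := hζ.autToPow_spec (KK s) σ
      rw [h] at h1
      apply Units.ext
      refine val_inj hζ ?_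
      rw [h1]
      have h2 := pow_cast hζ.pow_eq_one 1
      rw [pow_one] at h2
      simpa using h2.symm
  constructor
  · have h := stab_open (1 : GK s) ζ
    convert h using 1
    ext σ
    rw [SetLike.mem_coe, hmem, Set.mem_ofPred_eq, AlgEquiv.one_apply]
  · infer_instance
  · rw [Subgroup.index_ker]
    have h1 : Nat.card (hζ.autToPow (KK s)).range ∣ Nat.card (ZMod (2 ^ m))ˣ :=
      Subgroup.card_subgroup_dvd_card _
    rw [Nat.card_eq_fintype_card (α := (ZMod (2 ^ m))ˣ), ZMod.card_units_eq_totient] at h1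
    have h2 : (Nat.totient (2 ^ m)) ∣ 2 ^ m := by
      rcases Nat.eq_zero_or_pos m with rfl | hm
      · simp
      · rw [Nat.totient_prime_pow Nat.prime_two hm]
        simpa using pow_dvd_pow 2 (Nat.sub_le m 1)
    obtain ⟨a, -, ha⟩ := (Nat.dvd_prime_pow Nat.prime_two).1 (h1.trans h2)
    exact ⟨a, ha⟩
  · intro p _ ι hp σ hσ
    rw [hmem]
    refine hD s p ι hp σ hσ ζ m ?_ ?_
    · rw [hζ.pow_eq_one]
      exact twoUnit_one
    · rw [hζ.pow_eq_one, map_one]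

lemma nf_fix (hD : StD3) {s : QB} {m : ℕ} {ζ : QB} (hζ : IsPrimitiveRoot ζ (2 ^ m)) {τ : GK s}
    (hτ : τ ∈ Nf s) : τ ζ = ζ := by
  rw [Nf, Subgroup.mem_sInf] at hτ
  have h := hτ _ (te_stab hD (s := s) hζ)
  rw [MonoidHom.mem_ker] at h
  have h1 := hζ.autToPow_spec (KK s) τ
  rw [h] at h1
  rw [← h1]
  have h2 := pow_cast hζ.pow_eq_one 1
  rw [pow_one] at h2
  simpa using h2

lemma cyc_mul {s : QB} {χ : GK s → ℤ_[2]} (hχ : IsCyc χ) (σ τ : GK s) : χ (σ * τ) = χ σ * χ τ := by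
  refine PadicInt.ext_of_toZModPow.1 fun m => ?_
  obtain ⟨ζ, hζ⟩ := exists_prim m
  refine cyc_eq hχ hζ ?_
  rw [map_mul, pow_mul_val hζ.pow_eq_one, AlgEquiv.mul_apply, hχ τ m ζ hζ.pow_eq_one, map_pow,
    hχ σ m ζ hζ.pow_eq_one, ← pow_mul]

lemma cyc_one_of {s : QB} {χ : GK s → ℤ_[2]} (hχ : IsCyc χ) {τ : GK s}
    (h : ∀ (m : ℕ) (ζ : QB), IsPrimitiveRoot ζ (2 ^ m) → τ ζ = ζ) : χ τ = 1 := by
  refine PadicInt.ext_of_toZModPow.1 fun m => ?_
  obtain ⟨ζ, hζ⟩ := exists_prim m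
  refine cyc_eq hχ hζ ?_
  rw [h m ζ hζ, map_one]
  have h2 := pow_cast hζ.pow_eq_one 1
  rw [pow_one] at h2
  simpa using h2.symm

theorem stG1 (hD : StD3) : StG1 := by
  intro s χ hχ
  refine ⟨⟨?_, ?_, cyc_mul hχ⟩, ?_⟩
  · refine cont_of χ fun m σ => ?_
    obtain ⟨ζ, hζ⟩ := exists_prim m
    filter_upwards [(stab_open σ ζ).mem_nhds rfl] with τ hτ
    have hτ' : τ ζ = σ ζ := hτ
    exact cyc_eq hχ hζ (by rw [hτ', ← hχ σ m ζ hζ.pow_eq_one])
  · exact cyc_one_of hχ fun m ζ _ => rfl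
  · intro σ τ hτ
    rw [cyc_mul hχ, cyc_one_of hχ fun m ζ hζ => nf_fix hD hζ hτ, mul_one]

end Pool.Agent.K7.H79.PS
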