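import Pool.Agent.K7.H79.PS.G1

/-!
# Project PS, job G2: the characters lift to Kummer cocycles
-/

set_option autoImplicit false

namespace Pool.Agent.K7.H79.PS

open Pool.Agent.H76.PS
open Pool.Agent.Y715.Gi (QB KK GK)
open Pool.Agent.Y715.Nr Pool.Agent.W237.RK
open Pool.Agent.Z384 (II DD DDs Fld)

/-- a square root -/
noncomputable def sq (a : QB) : QB := (IsAlgClosed.exists_pow_nat_eq a (by norm_num : 0 < 2)).choose

lemma sq_spec (a : QB) : sq a ^ 2 = a :=
  (IsAlgClosed.exists_pow_nat_eq a (by norm_num : 0 < 2)).choose_spec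

/-- compatible roots of unity of order `2 ^ n` -/
noncomputable def rz : ℕ → QB
  | 0 => 1
  | n + 1 => Nat.rec (-1) (fun _ a => sq a) n

lemma rz_zero : rz 0 = 1 := rfl

lemma rz_one : rz 1 = -1 := rfl

lemma rz_two (n : ℕ) : rz (n + 2) = sq (rz (n + 1)) := rfl

lemma rz_sq (n : ℕ) : rz (n + 1) ^ 2 = rz n := by
  rcases n with _ | n
  · rw [rz_one, rz_zero]; norm_num
  · rw [rz_two, sq_spec]

lemma rz_pow (n : ℕ) : rz (n + 1) ^ 2 ^ n = -1 := by
  induction n with
  | zero => rw [pow_zero, pow_one, rz_one]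
  | succ n ih => rw [pow_succ', pow_mul, rz_sq, ih]

lemma rz_prim (n : ℕ) : IsPrimitiveRoot (rz n) (2 ^ n) := by
  rcases n with _ | n
  · rw [pow_zero, rz_zero]
    exact IsPrimitiveRoot.one
  · have h1 : ¬ rz (n + 1) ^ 2 ^ n = 1 := by
      rw [rz_pow]
      norm_num
    have h2 : rz (n + 1) ^ 2 ^ (n + 1) = 1 := by
      rw [pow_succ, pow_mul, rz_pow]
      norm_num
    have h3 : orderOf (rz (n + 1)) = 2 ^ (n + 1) := orderOf_eq_prime_pow h1 h2
    rw [← h3]
    exact IsPrimitiveRoot.orderOf _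

/-- compatible roots of `b` -/
noncomputable def ry (b x : QB) : ℕ → QB
  | 0 => b
  | n + 1 => Nat.rec x (fun _ a => sq a) n

lemma ry_zero (b x : QB) : ry b x 0 = b := rfl

lemma ry_one (b x : QB) : ry b x 1 = x := rfl

lemma ry_two (b x : QB) (n : ℕ) : ry b x (n + 2) = sq (ry b x (n + 1)) := rfl

lemma ry_sq {b x : QB} (hx : x ^ 2 = b) (n : ℕ) : ry b x (n + 1) ^ 2 = ry b x n := by
  rcases n with _ | n
  · rw [ry_one, ry_zero, hx]
  · rw [ry_two, sq_spec]

lemma ry_pow {b x : QB} (hx : x ^ 2 = b) (n : ℕ) : ry b x n ^ 2 ^ n = b := by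
  induction n with
  | zero => rw [pow_zero, pow_one, ry_zero]
  | succ n ih => rw [pow_succ', pow_mul, ry_sq hx, ih]

lemma ry_ne {b x : QB} (hx : x ^ 2 = b) (hb : b ≠ 0) (n : ℕ) : ry b x n ≠ 0 := by
  intro h
  have := ry_pow hx n
  rw [h, zero_pow (by positivity)] at this
  exact hb this.symm

/-- the relation between an automorphism and the value of the cocycle -/
def Rel {s : QB} (b x : QB) (σ : GK s) (κ : ℤ_[2]) : Prop :=
  ∀ n : ℕ, σ (ry b x n) = rz n ^ (PadicInt.toZModPow n κ).val * ry b x n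

section

variable {s : QB} {b x : QB} (hx : x ^ 2 = b) (hb0 : b ≠ 0)

include hx hb0

lemma rel_red {σ τ : GK s} {κ l : ℤ_[2]} (h : Rel b x σ κ) (h' : Rel b x τ l) {n : ℕ}
    (he : σ (ry b x n) = τ (ry b x n)) : PadicInt.toZModPow n κ = PadicInt.toZModPow n l := by
  refine val_inj (rz_prim n) ?_
  have h1 := h n
  rw [he, h' n] at h1
  exact (mul_right_cancel₀ (ry_ne hx hb0 n) h1).symm

lemma rel_unique {σ : GK s} {κ l : ℤ_[2]} (h : Rel b x σ κ) (h' : Rel b x σ l) : κ = l :=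
  PadicInt.ext_of_toZModPow.1 fun _ => rel_red hx hb0 h h' rfl

lemma rel_exists (hb : b ∈ KK s) (σ : GK s) : ∃ κ : ℤ_[2], Rel b x σ κ := by
  let t : ℕ → Set ℤ_[2] := fun n =>
    {κ | σ (ry b x n) = rz n ^ (PadicInt.toZModPow n κ).val * ry b x n}
  have hcl : ∀ n, IsClosed (t n) := by
    intro n
    have hc : IsLocallyConstant fun κ : ℤ_[2] => PadicInt.toZModPow n κ := by
      rw [IsLocallyConstant.iff_eventually_eq]
      intro κ
      have hpos : (0 : ℝ) < (2 : ℝ) ^ (1 - (n : ℤ)) := by positivity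
      filter_upwards [Metric.ball_mem_nhds κ hpos] with l hl
      have h1 : l - κ ∈ RingHom.ker (PadicInt.toZModPow (p := 2) n) := by
        rw [PadicInt.ker_toZModPow, ← PadicInt.norm_le_pow_iff_mem_span_pow,
          PadicInt.norm_le_pow_iff_norm_lt_pow_add_one]
        rw [Metric.mem_ball, dist_eq_norm] at hl
        push_cast
        convert hl using 2
        ring
      rw [RingHom.mem_ker, map_sub, sub_eq_zero] at h1
      exact h1
    have h2 : IsClosed ((fun κ : ℤ_[2] => PadicInt.toZModPow n κ) ⁻¹'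
        {a | σ (ry b x n) = rz n ^ a.val * ry b x n}) := by
      rw [← isOpen_compl_iff, ← Set.preimage_compl]
      exact hc _
    exact h2
  have hne : ∀ n, (t n).Nonempty := by
    intro n
    have h1 : (σ (ry b x n) / ry b x n) ^ 2 ^ n = 1 := by
      rw [div_pow, ← map_pow, ry_pow hx, show σ b = b from σ.commutes ⟨b, hb⟩, div_self hb0]
    obtain ⟨i, -, hi⟩ := (rz_prim n).eq_pow_of_pow_eq_one h1
    refine ⟨(i : ℤ_[2]), ?_⟩
    show σ (ry b x n) = rz n ^ (PadicInt.toZModPow n (i : ℤ_[2])).val * ry b x n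
    rw [map_natCast, pow_cast (rz_prim n).pow_eq_one, hi, div_mul_cancel₀ _ (ry_ne hx hb0 n)]
  have hanti : ∀ n, t (n + 1) ⊆ t n := by
    intro n κ hκ
    have h1 : σ (ry b x (n + 1)) =
      rz (n + 1) ^ (PadicInt.toZModPow (n + 1) κ).val * ry b x (n + 1) := hκ
    show σ (ry b x n) = rz n ^ (PadicInt.toZModPow n κ).val * ry b x n
    rw [← ry_sq hx n, map_pow, h1, mul_pow, ← pow_mul, mul_comm _ 2, pow_mul, rz_sq]
    congr 1
    rw [← PadicInt.cast_toZModPow n (n + 1) (Nat.le_succ n), ← ZMod.natCast_val,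
      pow_cast (rz_prim n).pow_eq_one]
  obtain ⟨κ, hκ⟩ := IsCompact.nonempty_iInter_of_sequence_nonempty_isCompact_isClosed t hanti hne
    (hcl 0).isCompact hcl
  exact ⟨κ, fun n => Set.mem_iInter.1 hκ n⟩

omit hx hb0 in
lemma rel_mul {χ : GK s → ℤ_[2]} (hχ : IsCyc χ) {σ τ : GK s} {κ l : ℤ_[2]} (h : Rel b x σ κ)
    (h' : Rel b x τ l) : Rel b x (σ * τ) (κ + χ σ * l) := by
  intro n
  have h1 := (rz_prim n).pow_eq_one
  rw [AlgEquiv.mul_apply, h' n, map_mul, map_pow, h n, hχ σ n _ h1, map_add, map_mul,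
    pow_add_val h1, pow_add, pow_mul_val h1, pow_mul]
  ring

/-- the subgroup `Nf s` fixes the roots of the `2`-unit `b` -/
lemma nf_fix_ry (hE0 : StE0) (hD : StD3) {d : ℕ} (hs : s ^ 2 = -(d : QB)) (hF : Fld d)
    (hb : b ∈ KK s) (hu : TwoUnit b) (n : ℕ) : ∀ τ ∈ Nf s, τ (ry b x n) = ry b x n := by
  have hfix : ∀ σ : GK s, σ b = b := fun σ => σ.commutes ⟨b, hb⟩
  induction n with
  | zero => exact fun τ _ => hfix τ
  | succ n ih =>
    set w := ry b x (n + 1) with hw
    have hw0 : w ≠ 0 := ry_ne hx hb0 (n + 1)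
    have hw2 : w ^ 2 = ry b x n := ry_sq hx n
    have hne : -w ≠ w := by
      intro h
      have : (2 : QB) * w = 0 := by linear_combination -h
      rcases mul_eq_zero.1 this with h | h
      · norm_num at h
      · exact hw0 h
    let U : Subgroup (GK s) := MulAction.stabilizer (GK s) (ry b x n)
    have hU : ∀ σ : GK s, σ ∈ U ↔ σ (ry b x n) = ry b x n := fun σ => by
      rw [MulAction.mem_stabilizer_iff, AlgEquiv.smul_def]
    have hUo : IsOpen (U : Set (GK s)) := stabilizer_isOpen_of_isIntegral _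
    have hNU : Nf s ≤ U := fun τ hτ => (hU τ).2 (ih τ hτ)
    have hpm : ∀ σ : U, (σ : GK s) w = w ∨ (σ : GK s) w = -w := by
      intro σ
      refine sq_eq_sq_iff_eq_or_eq_neg.1 ?_
      rw [← map_pow, hw2, (hU σ).1 σ.2]
    classical
    let φ : U → ZMod 2 := fun σ => if (σ : GK s) w = w then 0 else 1
    have hφ : φ ∈ HS U := by
      refine ⟨?_, ?_⟩
      · rw [IsLocallyConstant.iff_eventually_eq]
        intro σ
        have h1 : ∀ᶠ τ in nhds (σ : GK s), τ w = (σ : GK s) w :=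
          (stab_open (σ : GK s) w).mem_nhds rfl
        filter_upwards [(continuous_subtype_val (p := fun τ : GK s => τ ∈ U)).continuousAt.eventually
          h1] with τ hτ
        show (if (τ : GK s) w = w then (0 : ZMod 2) else 1) = if (σ : GK s) w = w then 0 else 1
        rw [hτ]
      · intro σ τ
        show (if ((σ * τ : U) : GK s) w = w then (0 : ZMod 2) else 1) =
          (if (σ : GK s) w = w then 0 else 1) + if (τ : GK s) w = w then 0 else 1
        rw [Subgroup.coe_mul, AlgEquiv.mul_apply]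
        rcases hpm σ with h1 | h1 <;> rcases hpm τ with h2 | h2
        · rw [h2, h1]; simp
        · rw [h2, map_neg, h1]; simp [hne]
        · rw [h2, h1]; simp [hne]
        · rw [h2, map_neg, h1, neg_neg]; simp only [hne, if_true, if_false]; decide
    obtain ⟨-, -, -, h4, -⟩ := hE0 s d hs hF
    have h5 := h4 U hUo hNU φ hφ (fun p _ ι hp σ hσ => by
      show (if (σ : GK s) w = w then (0 : ZMod 2) else 1) = 0
      rw [if_pos]
      refine hD s p ι hp σ hσ w (n + 1) ?_ ?_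
      · rw [hw, ry_pow hx]
        exact hu
      · rw [hw, ry_pow hx]
        exact hfix _)
    intro τ hτ
    have h6 := h5 ⟨τ, hNU hτ⟩ hτ
    by_contra hcon
    have h7 : (if τ w = w then (0 : ZMod 2) else 1) = 0 := h6
    rw [if_neg hcon] at h7
    exact one_ne_zero h7

end

lemma toZMod_iff (κ : ℤ_[2]) : PadicInt.toZMod κ = 0 ↔ PadicInt.toZModPow 1 κ = 0 := by
  rw [← RingHom.mem_ker, ← RingHom.mem_ker, PadicInt.ker_toZMod, PadicInt.ker_toZModPow,
    PadicInt.maximalIdeal_eq_span_p, pow_one]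

theorem stG2 (hE : StE) (hE0 : StE0) (hD : StD3) : StG2 := by
  intro s d hs hF χ hχ χ' hχ' φ hφ
  obtain ⟨b, x, hb, hu, hx, hφx⟩ := (hE s d hs hF).2.2 φ hφ
  have hb0 : b ≠ 0 := hu.1
  choose K hK using rel_exists (s := s) hx hb0 hb
  have hmul : ∀ σ τ : GK s, K (σ * τ) = K σ + χ σ * K τ := fun σ τ =>
    rel_unique hx hb0 (hK _) (rel_mul hχ (hK σ) (hK τ))
  have hnf : ∀ τ ∈ Nf s, K τ = 0 := by
    intro τ hτ
    refine rel_unique hx hb0 (hK τ) fun n => ?_
    rw [nf_fix_ry hx hb0 hE0 hD hs hF hb hu n τ hτ, map_zero, ZMod.val_zero, pow_zero, one_mul]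
  have hcont : Continuous K := by
    refine cont_of K fun m σ => ?_
    filter_upwards [(stab_open σ (ry b x m)).mem_nhds rfl] with τ hτ
    exact rel_red hx hb0 (hK τ) (hK σ) hτ
  have hcong : ∀ σ τ : GK s, σ⁻¹ * τ ∈ Nf s → K σ = K τ := by
    intro σ τ h
    have e : τ = σ * (σ⁻¹ * τ) := by group
    rw [e, hmul, hnf _ h, mul_zero, add_zero]
  let κ : Gs s → ℤ_[2] := Quotient.lift K (fun σ τ h => hcong σ τ (QuotientGroup.leftRel_apply.1 h))
  have hκ : ∀ σ : GK s, κ (QuotientGroup.mk σ) = K σ := fun σ => rfl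
  refine ⟨κ, ?_, ?_, ?_⟩
  · exact (QuotientGroup.isQuotientMap_mk (Nf s)).continuous_iff.2 hcont
  · intro a c
    obtain ⟨σ, rfl⟩ := QuotientGroup.mk_surjective a
    obtain ⟨τ, rfl⟩ := QuotientGroup.mk_surjective c
    rw [← QuotientGroup.mk_mul, hκ, hκ, hκ, hχ', hmul]
  · intro a
    obtain ⟨σ, rfl⟩ := QuotientGroup.mk_surjective a
    rw [hκ]
    have h2 : ∀ u v : ZMod 2, (u = 0 ↔ v = 0) → u = v := by decide
    refine h2 _ _ ?_
    rw [toZMod_iff, hφx σ]
    have h3 := hK σ 1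
    rw [ry_one] at h3
    constructor
    · intro h
      rw [h3, h, ZMod.val_zero, pow_zero, one_mul]
    · intro h
      refine val_inj (rz_prim 1) ?_
      rw [h] at h3
      have hx0 : x ≠ 0 := by
        rintro rfl
        exact hb0 (by rw [← hx]; norm_num)
      have h4 : (1 : QB) * x = rz 1 ^ (PadicInt.toZModPow 1 (K σ)).val * x := by rw [one_mul]; exact h3
      rw [ZMod.val_zero, pow_zero]
      exact (mul_right_cancel₀ hx0 h4).symm

end Pool.Agent.K7.H79.PS
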